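import Pool.Agent.W34.GB.Stm
import Pool.Agent.H397R2.QF.H3462PA
import Pool.Agent.H397R2.QF.H3462PA2
import Pool.Agent.H397R2.QF.H3462PD1
import Pool.Agent.H397R2.QF.H3462PD2
import Pool.Agent.H397R2.QF.H3462PD3
import Pool.Agent.H397R2.QF.H3873PB

/-!
# Project GZ, part P4: the sum over the primes
-/

open Filter Topology Pool.Agent.W34 Pool.Agent.H346R2

namespace Pool.Agent.W247.GZ

/-- common part of the majorant (times 16) -/
def FR (n p : ℕ) : ℤ :=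
  -32 * ((3 * n - p : ℕ) : ℤ) + 124 * ((2 * n - p : ℕ) : ℤ) + (if p ≤ 2 * n then 8 * (n : ℤ) else 0)
    - 32 * ((3 * n - 2 * p : ℕ) : ℤ) + 19 * ((n - p : ℕ) : ℤ) + (if p ≤ n then 13 * (n : ℤ) else 0)

/-- majorant for `p % 4 = σ` (times 16) -/
def FA (n p : ℕ) : ℤ :=
  12 * ((8 * n - p : ℕ) : ℤ) + 8 * ((4 * n - p : ℕ) : ℤ) - 16 * ((8 * n - 5 * p : ℕ) : ℤ) + FR n p

/-- majorant for `p % 4 = 4 - σ` (times 16) -/
def FB (n p : ℕ) : ℤ :=
  24 * ((4 * n - p : ℕ) : ℤ) + 4 * ((8 * n - 3 * p : ℕ) : ℤ) - 16 * ((8 * n - 6 * p : ℕ) : ℤ) + FR n p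

/-- the majorant -/
def Fs (σ n p : ℕ) : ℤ := if p % 4 = σ then FA n p else FB n p

/-- `2 * ∑_{i < 3h} (i / p)` -/
def SFz (h p : ℕ) : ℤ :=
  (p : ℤ) * ((3 * h / p : ℕ) : ℤ) * (((3 * h / p : ℕ) : ℤ) - 1) + 2 * ((3 * h / p : ℕ) : ℤ) * ((3 * h % p : ℕ) : ℤ)

lemma SF_eq (h p : ℕ) (hp : p.Prime) (h3 : 3 * h ≤ p ^ 2) :
    SFz h p = 2 * (padicValNat p (GB.sfac h) : ℤ) := by
  have : Fact p.Prime := ⟨hp⟩
  unfold GB.sfac
  rw [QG.val_prod p (3 * h) h3]
  unfold SFz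
  rw [← QG.sum_div p (3 * h) hp.pos]
  push_cast
  rfl

lemma FR_lb (n p : ℕ) : -(192 : ℤ) * n ≤ FR n p := by
  unfold FR
  split_ifs <;> omega

lemma Fs_lb (σ n p : ℕ) : -(320 : ℤ) * n ≤ Fs σ n p := by
  have h := FR_lb n p
  unfold Fs FA FB
  split_ifs <;> omega

/-- large primes -/
lemma large (h σ p : ℕ) (hσ : σ = 1 ∨ σ = 3) (hp : p % 2 = 1) (hh : 2 * h < p) :
    16 * ((GB.EB h σ p : ℤ) - SFz h p) ≤ Fs σ h p + 800 := by
  have a2 : 3 * h - 2 * p = 0 := by omega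
  have a5 : 8 * h - 5 * p = 0 := by omega
  have a6 : 8 * h - 6 * p = 0 := by omega
  have a7 : 2 * h - p = 0 := by omega
  have a8 : h - p = 0 := by omega
  have b1 : ¬ p ≤ 2 * h := by omega
  have b2 : ¬ p ≤ h := by omega
  have hS : SFz h p = 2 * ((3 * h - p : ℕ) : ℤ) := by
    unfold SFz
    rcases Nat.lt_or_ge (3 * h) p with h1 | h1
    · rw [Nat.div_eq_of_lt h1]
      have : 3 * h - p = 0 := by omega
      rw [this]
      simp
    · have e1 : 3 * h / p = 1 := by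
        apply Nat.div_eq_of_lt_le <;> omega
      have e2 : 3 * h % p = 3 * h - p := by
        rw [Nat.mod_eq_sub_mod h1, Nat.mod_eq_of_lt (by omega)]
      rw [e1, e2]
      simp
  rw [hS]
  unfold Fs FA FB FR GB.EB GB.t1 GB.t2 GB.j0
  simp only [a2, a5, a6, a7, a8, b1, b2, if_false]
  split_ifs with h4
  · omega
  · omega

lemma EM_mid (h σ p : ℕ) (h1 : h < p) (h2 : p ≤ 2 * h) (ht : GB.t1 σ p < p) :
    (GB.EM h σ p : ℤ) = 12 * (2 * (h : ℤ) - p) + 4 * ((p : ℤ) - max (2 * (h : ℤ) - p) (GB.t1 σ p : ℤ)) := by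
  have e : GB.EM h σ p = ∑ r ∈ Finset.Icc 1 (2 * h - p), 12 +
      ∑ r ∈ Finset.Ioc (max (2 * h - p) (GB.t1 σ p)) p, 4 := by
    unfold GB.EM
    have hs : (Finset.Icc 1 p).filter (fun r => r + p ≤ 2 * h ∨ GB.t1 σ p < r) =
        Finset.Icc 1 (2 * h - p) ∪ Finset.Ioc (max (2 * h - p) (GB.t1 σ p)) p := by
      ext r
      simp only [Finset.mem_filter, Finset.mem_union, Finset.mem_Icc, Finset.mem_Ioc]
      omega
    have hd : Disjoint (Finset.Icc 1 (2 * h - p)) (Finset.Ioc (max (2 * h - p) (GB.t1 σ p)) p) := by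
      rw [Finset.disjoint_left]
      intro r hr hr'
      rw [Finset.mem_Icc] at hr
      rw [Finset.mem_Ioc] at hr'
      omega
    rw [hs, Finset.sum_union hd]
    congr 1
    · apply Finset.sum_congr rfl
      intro r hr
      rw [Finset.mem_Icc] at hr
      have : (2 * h - r) / p = 1 := by
        apply Nat.div_eq_of_lt_le <;> omega
      rw [this]
      rfl
    · apply Finset.sum_congr rfl
      intro r hr
      rw [Finset.mem_Ioc] at hr
      have : (2 * h - r) / p = 0 := Nat.div_eq_of_lt (by omega)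
      rw [this]
      rfl
  rw [e, Finset.sum_const, Finset.sum_const, Nat.card_Icc, Nat.card_Ioc]
  simp only [smul_eq_mul]
  push_cast
  have hm : max (2 * h - p) (GB.t1 σ p) ≤ p := by omega
  omega

/-- medium primes, upper half -/
lemma mid (h σ p : ℕ) (hσ : σ = 1 ∨ σ = 3) (hp : p % 2 = 1) (hp3 : 3 ≤ p) (h1 : h < p) (h2 : p ≤ 2 * h) :
    16 * ((GB.EM h σ p : ℤ) - SFz h p) ≤ Fs σ h p + 800 := by
  have ht : GB.t1 σ p < p := by
    unfold GB.t1
    omega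
  rw [EM_mid h σ p h1 h2 ht]
  have a8 : h - p = 0 := by omega
  have b2 : ¬ p ≤ h := by omega
  have hS : SFz h p = 2 * ((3 * h - p : ℕ) : ℤ) + 2 * ((3 * h - 2 * p : ℕ) : ℤ) := by
    unfold SFz
    rcases Nat.lt_or_ge (3 * h) (2 * p) with h3 | h3
    · have e1 : 3 * h / p = 1 := by
        apply Nat.div_eq_of_lt_le <;> omega
      have e2 : 3 * h % p = 3 * h - p := by
        rw [Nat.mod_eq_sub_mod (by omega), Nat.mod_eq_of_lt (by omega)]
      have : 3 * h - 2 * p = 0 := by omega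
      rw [e1, e2, this]
      simp
    · have e1 : 3 * h / p = 2 := by
        apply Nat.div_eq_of_lt_le <;> omega
      have e2 : 3 * h % p = 3 * h - 2 * p := by
        have := Nat.div_add_mod (3 * h) p
        rw [e1] at this
        omega
      rw [e1, e2]
      push_cast
      have : ((3 * h - p : ℕ) : ℤ) = ((3 * h - 2 * p : ℕ) : ℤ) + p := by omega
      rw [this]
      ring
  rw [hS]
  unfold Fs FA FB FR
  rw [if_pos h2, if_neg b2]
  unfold GB.t1 GB.j0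
  split_ifs with h4
  · omega
  · omega

lemma EM_small (h σ p : ℕ) (hp : 0 < p) (h1 : p ≤ h) :
    4 * (GB.EM h σ p : ℤ) ≤ ((2 * h % p : ℕ) : ℤ) * (3 * ((2 * h / p : ℕ) : ℤ) + 4) ^ 2 +
      ((p : ℤ) - ((2 * h % p : ℕ) : ℤ)) * (3 * ((2 * h / p : ℕ) : ℤ) + 1) ^ 2 := by
  obtain ⟨s, hs⟩ : ∃ s, s = 2 * h / p := ⟨_, rfl⟩
  obtain ⟨ρ, hρ⟩ : ∃ ρ, ρ = 2 * h % p := ⟨_, rfl⟩
  have hN : 2 * h = p * s + ρ := by rw [hs, hρ]; exact (Nat.div_add_mod _ _).symm
  have hρp : ρ < p := by rw [hρ]; exact Nat.mod_lt _ hp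
  rw [← hs, ← hρ]
  have hs1 : 1 ≤ s := by
    rw [hs, Nat.one_le_div_iff hp]
    omega
  have e : GB.EM h σ p = ∑ r ∈ Finset.Icc 1 ρ, (3 * s + 4) ^ 2 / 4 + ∑ r ∈ Finset.Ioc ρ p, (3 * s + 1) ^ 2 / 4 := by
    unfold GB.EM
    have hs' : (Finset.Icc 1 p).filter (fun r => r + p ≤ 2 * h ∨ GB.t1 σ p < r) =
        Finset.Icc 1 ρ ∪ Finset.Ioc ρ p := by
      ext r
      simp only [Finset.mem_filter, Finset.mem_union, Finset.mem_Icc, Finset.mem_Ioc]
      omega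
    have hd : Disjoint (Finset.Icc 1 ρ) (Finset.Ioc ρ p) := by
      rw [Finset.disjoint_left]
      intro r hr hr'
      rw [Finset.mem_Icc] at hr
      rw [Finset.mem_Ioc] at hr'
      omega
    rw [hs', Finset.sum_union hd]
    congr 1
    · apply Finset.sum_congr rfl
      intro r hr
      rw [Finset.mem_Icc] at hr
      have : (2 * h - r) / p = s := by
        apply Nat.div_eq_of_lt_le
        · rw [hN, mul_comm]
          omega
        · rw [hN, add_mul, one_mul, mul_comm]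
          omega
      rw [this, show 3 * (s + 1) + 1 = 3 * s + 4 by ring]
    · apply Finset.sum_congr rfl
      intro r hr
      rw [Finset.mem_Ioc] at hr
      obtain ⟨t, rfl⟩ : ∃ t, s = t + 1 := ⟨s - 1, by omega⟩
      have : (2 * h - r) / p = t := by
        rw [mul_add, mul_one] at hN
        apply Nat.div_eq_of_lt_le
        · rw [hN, mul_comm]
          omega
        · rw [hN, add_mul, one_mul, mul_comm]
          omega
      rw [this]
  have g1 : 4 * ((3 * s + 4) ^ 2 / 4) ≤ (3 * s + 4) ^ 2 := Nat.mul_div_le _ _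
  have g2 : 4 * ((3 * s + 1) ^ 2 / 4) ≤ (3 * s + 1) ^ 2 := Nat.mul_div_le _ _
  rw [e, Finset.sum_const, Finset.sum_const, Nat.card_Icc, Nat.card_Ioc]
  simp only [smul_eq_mul]
  have e1 : ρ + 1 - 1 = ρ := by omega
  rw [e1]
  have g3 := Nat.mul_le_mul_left ρ g1
  have g4 := Nat.mul_le_mul_left (p - ρ) g2
  have g5 : 4 * (ρ * ((3 * s + 4) ^ 2 / 4) + (p - ρ) * ((3 * s + 1) ^ 2 / 4)) ≤
      ρ * (3 * s + 4) ^ 2 + (p - ρ) * (3 * s + 1) ^ 2 := by
    nlinarith [g3, g4]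
  have g6 : ((p - ρ : ℕ) : ℤ) = (p : ℤ) - ρ := by omega
  rw [← g6]
  exact_mod_cast g5

lemma small (h σ p : ℕ) (hp : 0 < p) (h1 : p ≤ h) :
    16 * ((GB.EM h σ p : ℤ) - SFz h p) ≤ 96 * h + 13 * p := by
  have h2 := EM_small h σ p hp h1
  obtain ⟨s, hs⟩ : ∃ s, s = 2 * h / p := ⟨_, rfl⟩
  obtain ⟨ρ, hρ⟩ : ∃ ρ, ρ = 2 * h % p := ⟨_, rfl⟩
  obtain ⟨c, hc⟩ : ∃ c, c = 3 * h / p := ⟨_, rfl⟩
  obtain ⟨d, hd⟩ : ∃ d, d = 3 * h % p := ⟨_, rfl⟩
  have hN : 2 * h = p * s + ρ := by rw [hs, hρ]; exact (Nat.div_add_mod _ _).symm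
  have hM : 3 * h = p * c + d := by rw [hc, hd]; exact (Nat.div_add_mod _ _).symm
  have hdp : d < p := by rw [hd]; exact Nat.mod_lt _ hp
  rw [← hs, ← hρ] at h2
  unfold SFz
  rw [← hc, ← hd]
  have hN' : (2 : ℤ) * h = p * s + ρ := by exact_mod_cast hN
  have hM' : (3 : ℤ) * h = p * c + d := by exact_mod_cast hM
  have hdp' : (0 : ℤ) ≤ (d : ℤ) * ((p : ℤ) - d) := mul_nonneg (by positivity) (by omega)
  have hp' : (0 : ℤ) < p := by exact_mod_cast hp
  have key : (p : ℤ) * ((p : ℤ) * c * (c - 1) + 2 * c * d) = (3 * (h : ℤ)) ^ 2 - 3 * h * p + d * (p - d) := by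
    rw [hM']
    ring
  have h3 : (p : ℤ) * (16 * ((GB.EM h σ p : ℤ) - ((p : ℤ) * c * (c - 1) + 2 * c * d))) ≤ p * (96 * h + 13 * p) := by
    have h4 : (p : ℤ) * (4 * (GB.EM h σ p : ℤ)) ≤ p * (ρ * (3 * (s : ℤ) + 4) ^ 2 + ((p : ℤ) - ρ) * (3 * (s : ℤ) + 1) ^ 2) :=
      mul_le_mul_of_nonneg_left h2 hp'.le
    have h5 : (4 : ℤ) * (p * (ρ * (3 * (s : ℤ) + 4) ^ 2 + ((p : ℤ) - ρ) * (3 * (s : ℤ) + 1) ^ 2)) -
        16 * ((3 * (h : ℤ)) ^ 2 - 3 * h * p) = p * (96 * h + 13 * p) - 9 * ((p : ℤ) - 2 * ρ) ^ 2 := by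
      have e1 : (16 : ℤ) * ((3 * (h : ℤ)) ^ 2 - 3 * h * p) = 36 * (2 * (h : ℤ)) ^ 2 - 24 * (2 * h) * p := by ring
      have e2 : (p : ℤ) * (96 * h + 13 * p) = p * (48 * (2 * h) + 13 * p) := by ring
      rw [e1, e2, hN']
      ring
    have h6 : 0 ≤ 9 * ((p : ℤ) - 2 * ρ) ^ 2 := by positivity
    linarith
  exact le_of_mul_le_mul_left h3 hp'

lemma Fs_small (σ n p : ℕ) (h : p ≤ n) : Fs σ n p = 96 * n + 13 * p := by
  unfold Fs FA FB FR
  have h2 : p ≤ 2 * n := by omega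
  simp only [h, h2, if_true]
  split_ifs <;> omega

lemma medium (h σ p : ℕ) (hσ : σ = 1 ∨ σ = 3) (hp : p % 2 = 1) (hp3 : 3 ≤ p) (h2 : p ≤ 2 * h) :
    16 * ((GB.EM h σ p : ℤ) - SFz h p) ≤ Fs σ h p + 800 := by
  rcases Nat.lt_or_ge h p with h1 | h1
  · exact mid h σ p hσ hp hp3 h1 h2
  · have := small h σ p (by omega) h1
    rw [Fs_small σ h p h1]
    omega

/-! ### limits -/

lemma FR_lim (hPA : QG.PAs) (hPA2 : QG.PA2s) (a : ℕ) (ha : a = 1 ∨ a = 3) :
    Tendsto (fun n : ℕ => (∑ p ∈ QG.PP a n, (FR n p : ℝ) * Real.log p) / (n : ℝ) ^ 2) atTop (𝓝 (141 / 4)) := by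
  have t1 := (hPA2 a ha 3 1 (by norm_num) (by norm_num)).const_mul 32
  have t2 := (hPA2 a ha 2 1 (by norm_num) (by norm_num)).const_mul 124
  have t3 := QG.ind_lim hPA a ha 2 (by norm_num) (by norm_num) 8
  have t4 := (hPA2 a ha 3 2 (by norm_num) (by norm_num)).const_mul 32
  have t5 := (hPA2 a ha 1 1 (by norm_num) (by norm_num)).const_mul 19
  have t6 := QG.ind_lim hPA a ha 1 (by norm_num) (by norm_num) 13
  have t := ((((t2.sub t1).add t3).sub t4).add t5).add t6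
  have e : 124 * (((2 : ℕ) : ℝ) ^ 2 / (4 * ((1 : ℕ) : ℝ))) - 32 * (((3 : ℕ) : ℝ) ^ 2 / (4 * ((1 : ℕ) : ℝ))) +
      8 * ((2 : ℕ) : ℝ) / 2 - 32 * (((3 : ℕ) : ℝ) ^ 2 / (4 * ((2 : ℕ) : ℝ))) +
      19 * (((1 : ℕ) : ℝ) ^ 2 / (4 * ((1 : ℕ) : ℝ))) + 13 * ((1 : ℕ) : ℝ) / 2 = 141 / 4 := by
    norm_num
  rw [e] at t
  refine t.congr fun n => ?_
  simp only [← mul_div_assoc, ← sub_div, ← add_div]
  congr 1
  simp only [Finset.mul_sum, ← Finset.sum_sub_distrib, ← Finset.sum_add_distrib]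
  apply Finset.sum_congr rfl
  intro p _
  unfold FR
  simp only [one_mul]
  push_cast
  split_ifs <;> ring

lemma FA_lim (hPA : QG.PAs) (hPA2 : QG.PA2s) (a : ℕ) (ha : a = 1 ∨ a = 3) :
    Tendsto (fun n : ℕ => (∑ p ∈ QG.PP a n, (FA n p : ℝ) * Real.log p) / (n : ℝ) ^ 2) atTop (𝓝 (4161 / 20)) := by
  have t0 := FR_lim hPA hPA2 a ha
  have t1 := (hPA2 a ha 8 1 (by norm_num) (by norm_num)).const_mul 12
  have t2 := (hPA2 a ha 4 1 (by norm_num) (by norm_num)).const_mul 8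
  have t3 := (hPA2 a ha 8 5 (by norm_num) (by norm_num)).const_mul 16
  have t := ((t1.add t2).sub t3).add t0
  have e : 12 * (((8 : ℕ) : ℝ) ^ 2 / (4 * ((1 : ℕ) : ℝ))) + 8 * (((4 : ℕ) : ℝ) ^ 2 / (4 * ((1 : ℕ) : ℝ))) -
      16 * (((8 : ℕ) : ℝ) ^ 2 / (4 * ((5 : ℕ) : ℝ))) + 141 / 4 = 4161 / 20 := by
    norm_num
  rw [e] at t
  refine t.congr fun n => ?_
  simp only [← mul_div_assoc, ← sub_div, ← add_div]
  congr 1
  simp only [Finset.mul_sum, ← Finset.sum_sub_distrib, ← Finset.sum_add_distrib]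
  apply Finset.sum_congr rfl
  intro p _
  unfold FA
  simp only [one_mul]
  push_cast
  ring

lemma FB_lim (hPA : QG.PAs) (hPA2 : QG.PA2s) (a : ℕ) (ha : a = 1 ∨ a = 3) :
    Tendsto (fun n : ℕ => (∑ p ∈ QG.PP a n, (FB n p : ℝ) * Real.log p) / (n : ℝ) ^ 2) atTop (𝓝 (1319 / 12)) := by
  have t0 := FR_lim hPA hPA2 a ha
  have t1 := (hPA2 a ha 4 1 (by norm_num) (by norm_num)).const_mul 24
  have t2 := (hPA2 a ha 8 3 (by norm_num) (by norm_num)).const_mul 4
  have t3 := (hPA2 a ha 8 6 (by norm_num) (by norm_num)).const_mul 16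
  have t := ((t1.add t2).sub t3).add t0
  have e : 24 * (((4 : ℕ) : ℝ) ^ 2 / (4 * ((1 : ℕ) : ℝ))) + 4 * (((8 : ℕ) : ℝ) ^ 2 / (4 * ((3 : ℕ) : ℝ))) -
      16 * (((8 : ℕ) : ℝ) ^ 2 / (4 * ((6 : ℕ) : ℝ))) + 141 / 4 = 1319 / 12 := by
    norm_num
  rw [e] at t
  refine t.congr fun n => ?_
  simp only [← mul_div_assoc, ← sub_div, ← add_div]
  congr 1
  simp only [Finset.mul_sum, ← Finset.sum_sub_distrib, ← Finset.sum_add_distrib]
  apply Finset.sum_congr rfl
  intro p _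
  unfold FB
  simp only [one_mul]
  push_cast
  ring

/-! ### the superfactorial -/

theorem PB3 : ∀ ε : ℝ, 0 < ε → ∀ᶠ n : ℕ in atTop,
    2 * ∑ i ∈ Finset.range (3 * n), Real.log (i.factorial : ℝ) ≤
      9 * (n : ℝ) ^ 2 * Real.log n + (9 * Real.log 3 - 27 / 2 + ε) * (n : ℝ) ^ 2 := by
  intro ε hε
  have hlog : Tendsto (fun x : ℝ => Real.log x / x) atTop (𝓝 0) := by
    have := Real.isLittleO_log_id_atTop.tendsto_div_nhds_zero
    simpa using this
  have h7 : Tendsto (fun n : ℕ => (3 * (n : ℝ))) atTop atTop :=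
    tendsto_natCast_atTop_atTop.const_mul_atTop (by norm_num)
  have hl2 := (hlog.comp h7).eventually (gt_mem_nhds (show (0 : ℝ) < ε / 196 by positivity))
  have hl3 := (tendsto_natCast_atTop_atTop (R := ℝ)).eventually (eventually_ge_atTop (32 / ε))
  filter_upwards [hl2, hl3, eventually_ge_atTop 1] with n h1 h3 hn
  have hn' : (1 : ℝ) ≤ n := by exact_mod_cast hn
  have hn0 : (0 : ℝ) < n := by linarith
  have h2 := QG.PB_ind (3 * n - 1)
  rw [show 3 * n - 1 + 1 = 3 * n by omega] at h2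
  have e0 : ((3 * n - 1 : ℕ) : ℝ) + 1 = 3 * n := by
    rw [Nat.cast_sub (by omega)]
    push_cast
    ring
  have e1 : ((3 * n - 1 : ℕ) : ℝ) = 3 * n - 1 := by linarith
  rw [e0, e1] at h2
  have e4 : Pool.Agent.LZ.F6_G (3 * (n : ℝ)) = 9 / 2 * (n : ℝ) ^ 2 * Real.log n +
      (9 / 2 * Real.log 3 - 27 / 4) * (n : ℝ) ^ 2 := by
    unfold Pool.Agent.LZ.F6_G
    rw [Real.log_mul (by norm_num) hn0.ne']
    ring
  rw [e4] at h2
  have h8 : Real.log (3 * n) < ε / 196 * (3 * n) := by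
    have h9 : Real.log (3 * (n : ℝ)) / (3 * n) < ε / 196 := h1
    rwa [div_lt_iff₀ (by positivity)] at h9
  have h10 : (3 * (n : ℝ)) * Real.log (3 * n) ≤ ε / 4 * (n : ℝ) ^ 2 := by
    have := mul_le_mul_of_nonneg_left h8.le (show (0 : ℝ) ≤ 3 * n by positivity)
    nlinarith [this, sq_nonneg (n : ℝ), mul_nonneg hε.le (sq_nonneg (n : ℝ))]
  have h11 : 16 * (n : ℝ) ≤ ε / 2 * (n : ℝ) ^ 2 := by
    have h12 : 32 ≤ ε * n := by
      rw [div_le_iff₀ hε] at h3
      linarith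
    nlinarith [h12, hn0]
  nlinarith [h2, h10, h11]

/-! ### assembly -/

/-- pointwise bound -/
lemma pointwise (σ : ℕ) (hσ : σ = 1 ∨ σ = 3) (D : ℕ) (n : ℕ) (hn : 2 ≤ n)
    (b : ℕ → ℝ)
    (h1 : ∀ p, p.Prime → 2 * n < p → b p ≤ (GB.EB n σ p : ℝ) * Real.log p)
    (h2 : ∀ p, p.Prime → p ≤ 2 * n → 10 * n + 8 < p ^ 2 → b p ≤ (GB.EM n σ p : ℝ) * Real.log p)
    (h3 : ∀ p, p.Prime → p ^ 2 ≤ 10 * n + 8 → b p ≤ (GB.ES D n p : ℝ) * Real.log p)
    (p : ℕ) (hp : p.Prime) (hpn : p ≤ 8 * n + 3) :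
    b p ≤ 2 * (padicValNat p (GB.sfac n) : ℝ) * Real.log p +
      ((if p ^ 2 ≤ 32 * n + 3 then (2 * D + 20) * n * Real.log (32 * n + 3) else 0) +
      (if p % 2 = 1 then (Fs σ n p : ℝ) / 16 * Real.log p else 0) + 50 * Real.log p) := by
  have hlp : 0 ≤ Real.log p := Real.log_natCast_nonneg p
  have hp1 : (1 : ℝ) < p := by exact_mod_cast hp.one_lt
  have hL : Real.log p ≤ Real.log (32 * n + 3) := by
    apply Real.log_le_log (by linarith)
    have : p ≤ 32 * n + 3 := by omega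
    exact_mod_cast this
  have hL0 : 0 ≤ Real.log (32 * (n : ℝ) + 3) := hlp.trans hL
  have hn0 : (0 : ℝ) ≤ n := Nat.cast_nonneg n
  have hC : (0 : ℝ) ≤ D := Nat.cast_nonneg D
  by_cases hs : p ^ 2 ≤ 10 * n + 8
  · rw [if_pos (by omega)]
    have h4 := h3 p hp hs
    unfold GB.ES at h4
    push_cast at h4
    have h5 : (Nat.log p (10 * n + 8) : ℝ) * Real.log p ≤ Real.log (32 * n + 3) := by
      have h6 : p ^ Nat.log p (10 * n + 8) ≤ 10 * n + 8 := Nat.pow_log_le_self p (by omega)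
      have h6' : p ^ Nat.log p (10 * n + 8) ≤ 32 * n + 3 := h6.trans (by omega)
      have h7 : ((p : ℝ)) ^ Nat.log p (10 * n + 8) ≤ 32 * n + 3 := by exact_mod_cast h6'
      have h8 := Real.log_le_log (by positivity) h7
      rwa [Real.log_pow] at h8
    have h9 : (D : ℝ) * n * ((Nat.log p (10 * n + 8) : ℝ) + 1) * Real.log p ≤ 2 * D * n * Real.log (32 * n + 3) := by
      have h10 : ((Nat.log p (10 * n + 8) : ℝ) + 1) * Real.log p ≤ 2 * Real.log (32 * n + 3) := by linarith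
      have h11 := mul_le_mul_of_nonneg_left h10 (mul_nonneg hC hn0)
      linarith
    have h12 : -(20 * n * Real.log (32 * n + 3)) ≤ (if p % 2 = 1 then (Fs σ n p : ℝ) / 16 * Real.log p else 0) := by
      split_ifs with ho
      · have h13 : -(320 : ℝ) * n ≤ (Fs σ n p : ℝ) := by exact_mod_cast Fs_lb σ n p
        have h14 : -(20 : ℝ) * n * Real.log p ≤ (Fs σ n p : ℝ) / 16 * Real.log p :=
          mul_le_mul_of_nonneg_right (by linarith) hlp
        have h15 : 20 * (n : ℝ) * Real.log p ≤ 20 * n * Real.log (32 * n + 3) :=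
          mul_le_mul_of_nonneg_left hL (by positivity)
        linarith
      · have : 0 ≤ 20 * (n : ℝ) * Real.log (32 * n + 3) := by positivity
        linarith
    linarith
  · have h0 : 0 ≤ (if p ^ 2 ≤ 32 * n + 3 then (2 * (D : ℝ) + 20) * n * Real.log (32 * n + 3) else 0) := by
      split_ifs <;> positivity
    have hs' : 10 * n + 8 < p ^ 2 := by omega
    have ho : p % 2 = 1 := by
      rcases hp.eq_two_or_odd with h | h
      · rw [h] at hs'
        omega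
      · exact h
    have hp3 : 3 ≤ p := by
      have := hp.two_le
      omega
    rw [if_pos ho]
    have hSF : (SFz n p : ℝ) = 2 * (padicValNat p (GB.sfac n) : ℝ) := by
      have := SF_eq n p hp (by omega)
      rw [this]
      rw [Int.cast_mul, Int.cast_natCast]
      norm_num
    rcases Nat.lt_or_ge (2 * n) p with h8 | h8
    · have h4 := h1 p hp h8
      have h5 : (16 : ℝ) * ((GB.EB n σ p : ℝ) - (SFz n p : ℝ)) ≤ (Fs σ n p : ℝ) + 800 := by
        have := large n σ p hσ ho h8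
        exact_mod_cast this
      rw [hSF] at h5
      have h7 : (GB.EB n σ p : ℝ) * Real.log p ≤
          (2 * (padicValNat p (GB.sfac n) : ℝ) + (Fs σ n p : ℝ) / 16 + 50) * Real.log p :=
        mul_le_mul_of_nonneg_right (by linarith) hlp
      linarith
    · have h4 := h2 p hp h8 hs'
      have h5 : (16 : ℝ) * ((GB.EM n σ p : ℝ) - (SFz n p : ℝ)) ≤ (Fs σ n p : ℝ) + 800 := by
        have := medium n σ p hσ ho hp3 h8
        exact_mod_cast this
      rw [hSF] at h5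
      have h7 : (GB.EM n σ p : ℝ) * Real.log p ≤
          (2 * (padicValNat p (GB.sfac n) : ℝ) + (Fs σ n p : ℝ) / 16 + 50) * Real.log p :=
        mul_le_mul_of_nonneg_right (by linarith) hlp
      linarith

lemma log3 : Real.log 3 ≤ 27 / 17 * Real.log 2 := by
  have h : (3 : ℝ) ^ 17 ≤ 2 ^ 27 := by norm_num
  have h2 := Real.log_le_log (by positivity) h
  rw [Real.log_pow, Real.log_pow] at h2
  push_cast at h2
  linarith

lemma log_sfac (n : ℕ) : Real.log (GB.sfac n : ℝ) = ∑ i ∈ Finset.range (3 * n), Real.log (i.factorial : ℝ) := by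
  unfold GB.sfac
  rw [Nat.cast_prod, Real.log_prod]
  intro i _
  exact_mod_cast i.factorial_ne_zero

lemma card_small (n : ℕ) : ((GB.PQ n).filter (fun p => p ^ 2 ≤ 32 * n + 3)).card ≤ Nat.sqrt (32 * n + 3) + 1 := by
  calc ((GB.PQ n).filter (fun p => p ^ 2 ≤ 32 * n + 3)).card ≤ (Finset.range (Nat.sqrt (32 * n + 3) + 1)).card := by
        apply Finset.card_le_card
        intro p hp
        rw [Finset.mem_filter] at hp
        rw [Finset.mem_range, Nat.lt_succ_iff, Nat.le_sqrt']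
        exact hp.2
    _ = _ := Finset.card_range _

lemma Fs_zero (σ n p : ℕ) (h : 8 * n ≤ p) (hn : 1 ≤ n) : Fs σ n p = 0 := by
  have a1 : 3 * n - p = 0 := by omega
  have a2 : 3 * n - 2 * p = 0 := by omega
  have a3 : 4 * n - p = 0 := by omega
  have a4 : 8 * n - p = 0 := by omega
  have a5 : 8 * n - 5 * p = 0 := by omega
  have a6 : 8 * n - 6 * p = 0 := by omega
  have a7 : 2 * n - p = 0 := by omega
  have a8 : n - p = 0 := by omega
  have a9 : 8 * n - 3 * p = 0 := by omega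
  have b1 : ¬ p ≤ 2 * n := by omega
  have b2 : ¬ p ≤ n := by omega
  unfold Fs FA FB FR
  simp only [a1, a2, a3, a4, a5, a6, a7, a8, a9, b1, b2, if_false]
  split_ifs <;> simp

lemma odd_split (σ : ℕ) (hσ : σ = 1 ∨ σ = 3) (n : ℕ) (hn : 1 ≤ n) :
    ∑ p ∈ GB.PQ n, (if p % 2 = 1 then (Fs σ n p : ℝ) / 16 * Real.log p else 0) =
      (∑ p ∈ QG.PP σ n, (FA n p : ℝ) * Real.log p + ∑ p ∈ QG.PP (4 - σ) n, (FB n p : ℝ) * Real.log p) / 16 := by
  have h0 : ∑ p ∈ GB.PQ n, (if p % 2 = 1 then (Fs σ n p : ℝ) / 16 * Real.log p else 0) =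
      ∑ p ∈ QG.PQ n, (if p % 2 = 1 then (Fs σ n p : ℝ) / 16 * Real.log p else 0) := by
    apply Finset.sum_subset
    · intro p hp
      unfold GB.PQ at hp
      unfold QG.PQ
      rw [Finset.mem_filter, Finset.mem_range] at hp ⊢
      exact ⟨by omega, hp.2⟩
    · intro p hp hp'
      unfold GB.PQ at hp'
      unfold QG.PQ at hp
      rw [Finset.mem_filter, Finset.mem_range] at hp hp'
      rw [Fs_zero σ n p (by by_contra hc; exact hp' ⟨by omega, hp.2⟩) hn]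
      simp
  have h1 : ∑ p ∈ QG.PQ n, (if p % 2 = 1 then (Fs σ n p : ℝ) / 16 * Real.log p else 0) =
      ∑ p ∈ (QG.PQ n).filter (fun p => p % 2 = 1), (Fs σ n p : ℝ) / 16 * Real.log p := by
    rw [Finset.sum_filter]
  have h2 : (QG.PQ n).filter (fun p => p % 2 = 1) = QG.PP σ n ∪ QG.PP (4 - σ) n := by
    ext p
    unfold QG.PQ QG.PP
    simp only [Finset.mem_filter, Finset.mem_union, Finset.mem_range]
    constructor
    · rintro ⟨⟨h3, h4⟩, h5⟩
      have : p % 4 = σ ∨ p % 4 = 4 - σ := by omega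
      rcases this with h | h
      · exact Or.inl ⟨h3, h4, h⟩
      · exact Or.inr ⟨h3, h4, h⟩
    · rintro (⟨h3, h4, h5⟩ | ⟨h3, h4, h5⟩)
      · exact ⟨⟨h3, h4⟩, by omega⟩
      · exact ⟨⟨h3, h4⟩, by omega⟩
  have h3 : Disjoint (QG.PP σ n) (QG.PP (4 - σ) n) := by
    rw [Finset.disjoint_left]
    intro p hp hp'
    unfold QG.PP at hp hp'
    rw [Finset.mem_filter] at hp hp'
    omega
  rw [h0, h1, h2, Finset.sum_union h3, add_div, Finset.sum_div, Finset.sum_div]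
  congr 1
  · apply Finset.sum_congr rfl
    intro p hp
    unfold QG.PP at hp
    rw [Finset.mem_filter] at hp
    unfold Fs
    rw [if_pos hp.2.2]
    ring
  · apply Finset.sum_congr rfl
    intro p hp
    unfold QG.PP at hp
    rw [Finset.mem_filter] at hp
    unfold Fs
    rw [if_neg (by omega)]
    ring

/-- P4: the sum over the primes -/
theorem PSum_proof : GB.PSum := by
  intro σ D hσ
  have hPA : QG.PAs := fun a ha => QG.PA a ha
  have hPA2 : QG.PA2s := fun a ha α j h1 h2 => QG.PA2 a ha (QG.PA a ha) α j h1 h2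
  have t1 := ((FA_lim hPA hPA2 σ hσ).add (FB_lim hPA hPA2 (4 - σ) (by omega))).div_const 16
  have t2 := QG.small_lim (2 * D + 20)
  have t3 : Tendsto (fun n : ℕ => 50 * (Real.log 4 * (11 * (n : ℝ))) / (n : ℝ) ^ 2) atTop (𝓝 0) := by
    have h := (tendsto_inv_atTop_zero.comp (tendsto_natCast_atTop_atTop (R := ℝ))).const_mul (50 * (Real.log 4 * 11))
    rw [mul_zero] at h
    refine h.congr' ?_
    filter_upwards [eventually_ge_atTop 1] with n hn
    have hn0 : (n : ℝ) ≠ 0 := by exact_mod_cast (by omega : n ≠ 0)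
    simp only [Function.comp]
    field_simp
  have t := (t2.add t1).add t3
  have t' := t.eventually (gt_mem_nhds (show (0 : ℝ) + (4161 / 20 + 1319 / 12) / 16 + 0 < 1988 / 100 by norm_num))
  filter_upwards [t', PB3 (1 / 100) (by norm_num), eventually_ge_atTop 2] with n hn1 hn2 hn
  intro b h1 h2 h3
  have hn0 : (2 : ℝ) ≤ n := by exact_mod_cast hn
  have hmem : ∀ p ∈ GB.PQ n, p.Prime ∧ p ≤ 8 * n + 3 := by
    intro p hp
    unfold GB.PQ at hp
    rw [Finset.mem_filter, Finset.mem_range] at hp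
    exact ⟨hp.2, by omega⟩
  have s0 : ∑ p ∈ GB.PQ n, b p ≤ ∑ p ∈ GB.PQ n, (2 * (padicValNat p (GB.sfac n) : ℝ) * Real.log p +
      ((if p ^ 2 ≤ 32 * n + 3 then (2 * D + 20) * n * Real.log (32 * n + 3) else 0) +
      (if p % 2 = 1 then (Fs σ n p : ℝ) / 16 * Real.log p else 0) + 50 * Real.log p)) :=
    Finset.sum_le_sum fun p hp => pointwise σ hσ D n hn b h1 h2 h3 p (hmem p hp).1 (hmem p hp).2
  rw [Finset.sum_add_distrib, Finset.sum_add_distrib, Finset.sum_add_distrib, odd_split σ hσ n (by omega)] at s0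
  have s1 : ∑ p ∈ GB.PQ n, 2 * (padicValNat p (GB.sfac n) : ℝ) * Real.log p ≤
      2 * ∑ i ∈ Finset.range (3 * n), Real.log (i.factorial : ℝ) := by
    rw [← log_sfac]
    have := QG.sum_val_log (GB.sfac n) (GB.PQ n) (fun p hp => (hmem p hp).1)
    simp only [mul_assoc]
    rw [← Finset.mul_sum]
    linarith
  have s2 : ∑ p ∈ GB.PQ n, (if p ^ 2 ≤ 32 * n + 3 then (2 * (D : ℝ) + 20) * n * Real.log (32 * n + 3) else 0) ≤
      ((Nat.sqrt (32 * n + 3) : ℝ) + 1) * ((2 * D + 20) * n * Real.log (32 * n + 3)) := by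
    rw [← Finset.sum_filter, Finset.sum_const, nsmul_eq_mul]
    apply mul_le_mul_of_nonneg_right
    · exact_mod_cast card_small n
    · have : 0 ≤ Real.log (32 * (n : ℝ) + 3) := Real.log_nonneg (by linarith)
      positivity
  have s3 : ∑ p ∈ GB.PQ n, 50 * Real.log (p : ℝ) ≤ 50 * (Real.log 4 * (11 * (n : ℝ))) := by
    rw [← Finset.mul_sum]
    apply mul_le_mul_of_nonneg_left _ (by norm_num)
    have h4 : ∑ p ∈ GB.PQ n, Real.log (p : ℝ) = Chebyshev.theta ((8 * n + 3 : ℕ) : ℝ) := by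
      rw [Chebyshev.theta_eq_sum_Icc, Nat.floor_natCast]
      unfold GB.PQ
      congr 1
      ext p
      simp only [Finset.mem_filter, Finset.mem_range, Finset.mem_Icc]
      constructor
      · rintro ⟨h, h'⟩
        exact ⟨⟨by omega, by omega⟩, h'⟩
      · rintro ⟨⟨_, h⟩, h'⟩
        exact ⟨by omega, h'⟩
    rw [h4]
    refine (Chebyshev.theta_le_log4_mul_x (Nat.cast_nonneg _)).trans ?_
    apply mul_le_mul_of_nonneg_left _ (Real.log_nonneg (by norm_num))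
    push_cast
    linarith
  have hn3 : ((Nat.sqrt (32 * n + 3) : ℝ) + 1) * ((2 * D + 20) * n * Real.log (32 * n + 3)) +
      (∑ p ∈ QG.PP σ n, (FA n p : ℝ) * Real.log p + ∑ p ∈ QG.PP (4 - σ) n, (FB n p : ℝ) * Real.log p) / 16 +
      50 * (Real.log 4 * (11 * (n : ℝ))) ≤ 1988 / 100 * (n : ℝ) ^ 2 := by
    have hnn : (0 : ℝ) < (n : ℝ) ^ 2 := by positivity
    rw [← div_le_iff₀ hnn]
    refine le_trans (le_of_eq ?_) hn1.le
    field_simp
  have h7 := log3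
  have h8 := Real.log_two_lt_d9
  have h9 : 9 * Real.log 3 - 27 / 2 + 1 / 100 ≤ -(35 / 10) := by linarith
  have h10 : (9 * Real.log 3 - 27 / 2 + 1 / 100) * (n : ℝ) ^ 2 ≤ -(35 / 10) * (n : ℝ) ^ 2 :=
    mul_le_mul_of_nonneg_right h9 (by positivity)
  have h11 : (0 : ℝ) ≤ (n : ℝ) ^ 2 := by positivity
  linarith

end Pool.Agent.W247.GZ
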